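import Pool.Agent.Y223.G.Stm3

/-!
Job G3-GGL: gluing of the charts.
-/

set_option autoImplicit false

namespace Pool.Agent.Y971.G

open Pool.Agent.Y223.G

section loc

variable {R R' K : Type} [CommRing R] [CommRing R'] [Field K] [Algebra R K] [Algebra R' K]

/-- the elements which belong to `C` after multiplication by a power of `ν` -/
def TT (C : Subalgebra R K) (ν : K) (hν : ν ∈ C)
    (hR : ∀ r : R', ∃ n : ℕ, ν ^ n * algebraMap R' K r ∈ C) : Subalgebra R' K where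
  carrier := {c | ∃ n : ℕ, ν ^ n * c ∈ C}
  mul_mem' := by
    rintro f g ⟨n, hn⟩ ⟨m, hm⟩
    refine ⟨n + m, ?_⟩
    have : ν ^ (n + m) * (f * g) = (ν ^ n * f) * (ν ^ m * g) := by ring
    rw [this]
    exact C.mul_mem hn hm
  add_mem' := by
    rintro f g ⟨n, hn⟩ ⟨m, hm⟩
    refine ⟨n + m, ?_⟩
    have : ν ^ (n + m) * (f + g) = ν ^ m * (ν ^ n * f) + ν ^ n * (ν ^ m * g) := by ring
    rw [this]
    exact C.add_mem (C.mul_mem (C.pow_mem hν _) hn) (C.mul_mem (C.pow_mem hν _) hm)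
  algebraMap_mem' := hR

lemma mem_TT {C : Subalgebra R K} {ν : K} {hν : ν ∈ C}
    {hR : ∀ r : R', ∃ n : ℕ, ν ^ n * algebraMap R' K r ∈ C} {c : K} :
    c ∈ TT C ν hν hR ↔ ∃ n : ℕ, ν ^ n * c ∈ C := Iff.rfl

end loc

section

variable {k O K : Type} [CommRing k] [CommRing O] [Field K] [Algebra k O]
  [Algebra O K] [Algebra k K] [IsScalarTower k O K] {p : ℕ} {τ : K ≃ₐ[k] K} {m : ℕ}

omit [CommRing O] [Algebra k O] [Algebra O K] [IsScalarTower k O K] in
lemma df_iter_inv {μ : K} (h : τ μ = μ) (a : ℕ) (c : K) :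
    (df τ)^[a] (μ * c) = μ * (df τ)^[a] c := by
  induction a with
  | zero => rfl
  | succ a ih =>
    rw [Function.iterate_succ_apply', Function.iterate_succ_apply', ih]
    unfold df
    rw [map_mul, h]
    ring

omit [CommRing O] [Algebra k O] [Algebra O K] [IsScalarTower k O K] in
lemma it_pow (i : ℕ) (x : K) : τ^[i] x = (τ ^ i) x := by
  induction i with
  | zero => rfl
  | succ i ih =>
    rw [Function.iterate_succ_apply', ih, pow_succ']
    rfl

omit [CommRing O] [Algebra k O] [Algebra O K] [IsScalarTower k O K] in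
lemma it_div (i : ℕ) (x y : K) : τ^[i] (x / y) = τ^[i] x / τ^[i] y := by
  rw [it_pow, it_pow, it_pow, map_div₀]

omit [CommRing O] [Algebra k O] [Algebra O K] [IsScalarTower k O K] in
lemma it_ne (i : ℕ) {x : K} (hx : x ≠ 0) : τ^[i] x ≠ 0 := by
  rw [it_pow]
  exact (map_ne_zero _).2 hx

omit [CommRing O] [Algebra k O] [Algebra O K] [IsScalarTower k O K] in
lemma it_MN (i : ℕ) (z : Fin (m + 1) → K) (d : ℕ) {x : K} (hx : x ∈ MN z d) :
    τ^[i] x ∈ MN (fun j => τ^[i] (z j)) d := by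
  obtain ⟨a, ha, rfl⟩ := hx
  refine ⟨a, ha, ?_⟩
  rw [it_pow, map_prod]
  refine Finset.prod_congr rfl fun j _ => ?_
  rw [map_pow]
  simp only [it_pow]

omit [CommRing O] [Algebra k O] [Algebra O K] [IsScalarTower k O K] in
lemma it_zero (i : ℕ) : τ^[i] (0 : K) = 0 := by rw [it_pow, map_zero]

omit [CommRing O] [Algebra k O] [Algebra O K] [IsScalarTower k O K] in
lemma it_add (i : ℕ) (x y : K) : τ^[i] (x + y) = τ^[i] x + τ^[i] y := by
  rw [it_pow, it_pow, it_pow, map_add]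

omit [CommRing O] [Algebra k O] [Algebra O K] [IsScalarTower k O K] in
lemma it_smul (i : ℕ) (r : k) (x : K) : τ^[i] (r • x) = algebraMap k K r * τ^[i] x := by
  rw [it_pow, it_pow, map_smul, Algebra.smul_def]

/-- the quotient of two forms is in the chart -/
lemma div_mem (s : k) (z : Fin (m + 1) → K) (d i : ℕ) (F : K) {G : K} (hG : G ∈ FS k z d) :
    τ^[i] (G / F) ∈ AF (OL O (K := K) s) (fun j => τ^[i] (z j)) d (τ^[i] F) := by
  rw [it_div]
  unfold FS at hG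
  induction hG using Submodule.span_induction with
  | mem x hx => exact Algebra.subset_adjoin ⟨_, it_MN i z d hx, rfl⟩
  | zero =>
    rw [it_zero, zero_div]
    exact Subalgebra.zero_mem _
  | add x y _ _ hx hy =>
    rw [it_add, add_div]
    exact Subalgebra.add_mem _ hx hy
  | smul r x _ hx =>
    rw [it_smul, mul_div_assoc]
    refine Subalgebra.mul_mem _ ?_ hx
    exact Subalgebra.algebraMap_mem _
      (⟨algebraMap k K r, (OL O (K := K) s).algebraMap_mem r⟩ : OL O (K := K) s)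

omit [CommRing O] [Algebra k O] [Algebra O K] [IsScalarTower k O K] in
lemma nu_inv (hτ : ∀ x, τ^[p] x = x) {x : K} (hx : x ≠ 0) :
    τ (∏ i : Fin p, τ^[i] x) = ∏ i : Fin p, τ^[i] x := by
  rw [map_prod]
  have e1 : ∏ i : Fin p, τ (τ^[i] x) = ∏ i ∈ Finset.range p, τ^[i + 1] x := by
    rw [Finset.prod_range]
    refine Finset.prod_congr rfl fun i _ => ?_
    rw [Function.iterate_succ_apply']
  have e2 : ∏ i : Fin p, τ^[i] x = ∏ i ∈ Finset.range p, τ^[i] x := by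
    rw [Finset.prod_range]
  have e3 := Finset.prod_range_succ (fun i => τ^[i] x) p
  rw [Finset.prod_range_succ' (fun i => τ^[i] x) p, hτ x] at e3
  rw [e1, e2]
  exact mul_right_cancel₀ hx e3

omit [CommRing O] [Algebra k O] [Algebra O K] [IsScalarTower k O K] in
lemma nu_gen {F G : K} (hF : F ≠ 0) (hG : G ≠ 0) (i : Fin p) (x : K) :
    (∏ j : Fin p, τ^[j] (G / F)) * (x / τ^[i] G) =
      (∏ j ∈ Finset.univ.erase i, τ^[j] (G / F)) * (x / τ^[i] F) := by
  rw [← Finset.mul_prod_erase Finset.univ _ (Finset.mem_univ i), it_div]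
  have h1 := it_ne (τ := τ) i hF
  have h2 := it_ne (τ := τ) i hG
  field_simp

/-- the algebra of a chart -/
noncomputable abbrev CF (O : Type) [CommRing O] [Algebra k O] [Algebra O K] [IsScalarTower k O K]
    (p : ℕ) (τ : K ≃ₐ[k] K) (z : Fin (m + 1) → K) (s : k) (d : ℕ) (F : K) :
    Subalgebra (OL O (K := K) s) K :=
  CC (fun i => AF (OL O (K := K) s) (fun j => τ^[i] (z j)) d (τ^[i] F)) p

lemma nu_mem (s : k) (z : Fin (m + 1) → K) (d : ℕ) (F : K) {G : K} (hG : G ∈ FS k z d) :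
    ∏ i : Fin p, τ^[i] (G / F) ∈ CF O p τ z s d F :=
  Subalgebra.prod_mem _ fun i _ => le_CC _ i.2 (div_mem s z d i F hG)

theorem t_GGL1 : S_GGL1 := by
  intro k O K _ _ _ _ _ _ _ p hp τ hτ m z s 𝔓 l d F G hF hG hF0 hG0
  set ν : K := ∏ i : Fin p, τ^[i] (G / F) with hν
  have hνC : ν ∈ CF O p τ z s d F := nu_mem s z d F hG
  have hνR : hm 0 ν ∈ GR O p τ z s 𝔓 l d F := RR_c hp hνC
  have hντ : τ ν = ν := nu_inv hτ (div_ne_zero hG0 hF0)
  refine ⟨hνR, fun f hf => ?_⟩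
  have hle : CF O p τ z s d G ≤ TT (CF O p τ z s d F) ν hνC
      (fun r => ⟨0, by rw [pow_zero, one_mul]; exact Subalgebra.algebraMap_mem _ r⟩) := by
    refine iSup_le fun i => Algebra.adjoin_le ?_
    rintro _ ⟨x, hx, rfl⟩
    refine ⟨1, ?_⟩
    rw [pow_one, hν, nu_gen hF0 hG0]
    refine Subalgebra.mul_mem _ (Subalgebra.prod_mem _ fun j _ =>
      le_CC (fun i => AF (OL O (K := K) s) (fun j => τ^[i] (z j)) d (τ^[i] F)) j.2
        (div_mem s z d j F hG)) ?_
    exact le_CC (fun i => AF (OL O (K := K) s) (fun j => τ^[i] (z j)) d (τ^[i] F)) i.2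
      (Algebra.subset_adjoin ⟨x, hx, rfl⟩)
  have hle2 : GR O p τ z s 𝔓 l d G ≤ loc (GR O p τ z s 𝔓 l d F) (hm 0 ν) hνR := by
    refine Algebra.adjoin_le ?_
    rintro f ((hf | ⟨e, he, rfl⟩) | ⟨a, c, hc, ha, rfl⟩)
    · rw [hf]
      exact le_loc _ _ _ RR_s
    · exact le_loc _ _ _ (RR_e he)
    · obtain ⟨n, hn⟩ := hle hc
      refine ⟨n, ?_⟩
      rw [hm_pow, mul_zero, hm_mul, zero_add, ← df_iter_inv (by rw [map_pow, hντ])]
      exact RR_del ha hn
  exact hle2 hf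

theorem t_GGL2 : S_GGL2 := by
  intro k O K _ _ _ _ _ _ _ p hp τ hτ m z s s' hs hs' 𝔓 𝔓' l l' d F hF hF0 h𝔓
  set ν : K := algebraMap k K s' / algebraMap k K s with hν
  have hντ : τ ν = ν := by
    rw [hν, map_div₀, AlgEquiv.commutes, AlgEquiv.commutes]
  -- the inverse of `s`
  have hinv : (algebraMap k K s)⁻¹ ∈ OL O (K := K) s := by
    refine ⟨1, 1, ?_⟩
    rw [pow_one, mul_inv_cancel₀ hs, map_one]
  have hνO : ν ∈ OL O (K := K) s := by
    rw [hν, div_eq_mul_inv]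
    exact Subalgebra.mul_mem _ (Subalgebra.algebraMap_mem _ s') hinv
  have hνC : ν ∈ CF O p τ z s d F :=
    Subalgebra.algebraMap_mem (CF O p τ z s d F) (⟨ν, hνO⟩ : OL O (K := K) s)
  have hνR : hm 0 ν ∈ GR O p τ z s 𝔓 l d F := RR_c hp hνC
  have hνR1 : hm 1 ν ∈ GR O p τ z s 𝔓 l d F := by
    have h1 : (⟨(algebraMap k K s)⁻¹, hinv⟩ : OL O (K := K) s) *
        algebraMap k (OL O (K := K) s) s' ∈ 𝔓 := Ideal.mul_mem_left _ _ h𝔓
    have h2 := RR_e (k := k) (τ := τ) (p := p) (l := l) (C := CF O p τ z s d F) h1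
    have h3 : algebraMap (OL O (K := K) s) K ((⟨(algebraMap k K s)⁻¹, hinv⟩ :
        OL O (K := K) s) * algebraMap k (OL O (K := K) s) s') = ν := by
      rw [map_mul, hν, div_eq_inv_mul]
      rfl
    rw [h3] at h2
    exact h2
  -- the elements of `OL s'`
  have hOL : ∀ r : OL O (K := K) s', ∃ n : ℕ, ν ^ n * algebraMap (OL O (K := K) s') K r ∈
      OL O (K := K) s := by
    rintro ⟨x, n, y, hy⟩
    refine ⟨n, n, y, ?_⟩
    rw [← hy, hν, div_pow]
    show algebraMap k K s ^ n * (algebraMap k K s' ^ n / algebraMap k K s ^ n * x) = _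
    field_simp
  have hOLC : ∀ x : K, x ∈ OL O (K := K) s → x ∈ CF O p τ z s d F := fun x hx =>
    Subalgebra.algebraMap_mem (CF O p τ z s d F) (⟨x, hx⟩ : OL O (K := K) s)
  refine ⟨hνR, fun f hf => ?_⟩
  have hle : CF O p τ z s' d F ≤ TT (CF O p τ z s d F) ν hνC
      (fun r => by obtain ⟨n, hn⟩ := hOL r; exact ⟨n, hOLC _ hn⟩) := by
    refine iSup_le fun i => Algebra.adjoin_le ?_
    rintro _ ⟨x, hx, rfl⟩
    refine ⟨0, ?_⟩
    rw [pow_zero, one_mul]
    exact le_CC (fun i => AF (OL O (K := K) s) (fun j => τ^[i] (z j)) d (τ^[i] F)) i.2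
      (Algebra.subset_adjoin ⟨x, hx, rfl⟩)
  have hle2 : GR O p τ z s' 𝔓' l' d F ≤ loc (GR O p τ z s 𝔓 l d F) (hm 0 ν) hνR := by
    refine Algebra.adjoin_le ?_
    rintro f ((hf | ⟨e, he, rfl⟩) | ⟨a, c, hc, ha, rfl⟩)
    · rw [hf]
      exact le_loc _ _ _ RR_s
    · obtain ⟨n, hn⟩ := hOL e
      refine ⟨n + 1, ?_⟩
      have h1 := Subalgebra.mul_mem _ (RR_c (k := k) (τ := τ) (l := l) (𝔓 := 𝔓) hp (hOLC _ hn)) hνR1
      rw [hm_mul] at h1
      rw [hm_pow, hm_mul, mul_zero]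
      have h2 : ν ^ (n + 1) * algebraMap (OL O (K := K) s') K e =
          ν ^ n * algebraMap (OL O (K := K) s') K e * ν := by ring
      rw [h2]
      exact h1
    · obtain ⟨n, hn⟩ := hle hc
      refine ⟨n + wt l' a, ?_⟩
      have h1 : hm (wt l a) ((df τ)^[a] (ν ^ n * c)) ∈ GR O p τ z s 𝔓 l d F := RR_del ha hn
      have h2 : hm 0 ((df τ)^[a] (ν ^ n * c)) ∈ GR O p τ z s 𝔓 l d F :=
        RR_low' h1 (by positivity)
      have h3 := Subalgebra.mul_mem _ h2 (Subalgebra.pow_mem _ hνR1 (wt l' a))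
      rw [hm_pow, hm_mul, df_iter_inv (by rw [map_pow, hντ])] at h3
      rw [hm_pow, hm_mul]
      have h4 : ν ^ (n + wt l' a) * (df τ)^[a] c = ν ^ n * (df τ)^[a] c * ν ^ wt l' a := by ring
      rw [h4]
      simpa using h3
  exact hle2 hf

end

end Pool.Agent.Y971.G
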